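import Mathlib

/-! Numerical facts on `rr j = 2 * C(2j+2, j+1) / 4^(j+1)`. -/

set_option autoImplicit false

namespace Pool.Agent.MP_da4a48_co.H89

open Finset

/-- `rr j = 2 * C(2(j+1), j+1) / 4^(j+1)` -/
noncomputable def rr (j : ℕ) : ℝ := 2 * (Nat.centralBinom (j + 1) : ℝ) / 4 ^ (j + 1)

theorem rr_pos (j : ℕ) : 0 < rr j := by
  unfold rr
  have : (0 : ℝ) < Nat.centralBinom (j + 1) := by exact_mod_cast Nat.centralBinom_pos _
  positivity

theorem rr_zero : rr 0 = 1 := by
  unfold rr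
  norm_num [Nat.centralBinom]

theorem rr_succ (j : ℕ) : rr (j + 1) = rr j * ((2 * j + 3) / (2 * j + 4)) := by
  unfold rr
  have h := Nat.succ_mul_centralBinom_succ (j + 1)
  have h' : ((j : ℝ) + 1 + 1) * (Nat.centralBinom (j + 1 + 1) : ℝ)
      = 2 * (2 * ((j : ℝ) + 1) + 1) * (Nat.centralBinom (j + 1) : ℝ) := by exact_mod_cast h
  have h2 : (Nat.centralBinom (j + 1 + 1) : ℝ)
      = 2 * (2 * ((j : ℝ) + 1) + 1) * (Nat.centralBinom (j + 1) : ℝ) / ((j : ℝ) + 1 + 1) := by
    rw [← h']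
    field_simp
  rw [h2]
  field_simp
  ring

theorem rr_succ_le (j : ℕ) : rr (j + 1) ≤ rr j := by
  rw [rr_succ]
  have h := rr_pos j
  have : ((2 * j + 3) / (2 * j + 4) : ℝ) ≤ 1 := by
    rw [div_le_one (by positivity)]
    linarith
  nlinarith

theorem rr_anti : Antitone rr := antitone_nat_of_succ_le rr_succ_le

theorem rr_le_two_mul (j : ℕ) : rr j ≤ 2 * rr (j + 1) := by
  rw [rr_succ]
  have h := rr_pos j
  have : (1 / 2 : ℝ) ≤ (2 * j + 3) / (2 * j + 4) := by
    rw [div_le_div_iff₀ (by norm_num) (by positivity)]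
    have : (0 : ℝ) ≤ j := Nat.cast_nonneg j
    linarith
  nlinarith

theorem rr_sub_le (j k : ℕ) : rr (j - k) ≤ 2 ^ k * rr j := by
  induction k with
  | zero => simp
  | succ k ih =>
    have h1 : rr (j - (k + 1)) ≤ 2 * rr (j - k) := by
      by_cases h : k + 1 ≤ j
      · have := rr_le_two_mul (j - (k + 1))
        rwa [show j - (k + 1) + 1 = j - k by omega] at this
      · rw [show j - (k + 1) = j - k by omega]
        linarith [rr_pos (j - k)]
    rw [pow_succ]
    linarith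

theorem rr_mul_le (a b : ℕ) : rr a * rr b ≤ rr (a + b) := by
  induction a with
  | zero => simp [rr_zero]
  | succ a ih =>
    rw [show a + 1 + b = (a + b) + 1 by omega, rr_succ, rr_succ]
    have h1 : ((2 * a + 3) / (2 * a + 4) : ℝ)
        ≤ (2 * ((a + b : ℕ) : ℝ) + 3) / (2 * ((a + b : ℕ) : ℝ) + 4) := by
      rw [div_le_div_iff₀ (by positivity) (by positivity)]
      push_cast
      have : (0 : ℝ) ≤ b := Nat.cast_nonneg b
      nlinarith
    have h2 := rr_pos (a + b)
    have h3 : (0 : ℝ) ≤ (2 * a + 3) / (2 * a + 4) := by positivity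
    calc rr a * ((2 * a + 3) / (2 * a + 4)) * rr b
        = (rr a * rr b) * ((2 * a + 3) / (2 * a + 4)) := by ring
      _ ≤ rr (a + b) * ((2 * a + 3) / (2 * a + 4)) := mul_le_mul_of_nonneg_right ih h3
      _ ≤ _ := mul_le_mul_of_nonneg_left h1 h2.le

theorem choose_up (k d : ℕ) :
    Nat.choose (2 * k + d) k ≤ 2 ^ d * Nat.choose (2 * k) k := by
  induction d with
  | zero => simp
  | succ d ih =>
    have h := Nat.choose_mul_succ_eq (2 * k + d) k
    have h2 : Nat.choose (2 * k + d + 1) k ≤ 2 * Nat.choose (2 * k + d) k := by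
      have h3 : 2 * k + d + 1 - k = k + d + 1 := by omega
      rw [h3] at h
      apply Nat.le_of_mul_le_mul_right (c := k + d + 1) _ (by omega)
      rw [← h]
      nlinarith [Nat.zero_le (Nat.choose (2 * k + d) k), Nat.zero_le d]
    rw [← add_assoc, pow_succ]
    calc _ ≤ 2 * Nat.choose (2 * k + d) k := h2
      _ ≤ 2 * (2 ^ d * Nat.choose (2 * k) k) := Nat.mul_le_mul_left _ ih
      _ = _ := by ring

theorem choose_down (k d : ℕ) (hd : d ≤ 2 * k) :
    2 ^ d * Nat.choose (2 * k - d) k ≤ Nat.choose (2 * k) k := by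
  induction d with
  | zero => simp
  | succ d ih =>
    have ih' := ih (by omega)
    obtain ⟨m, hm⟩ : ∃ m, 2 * k - (d + 1) = m := ⟨_, rfl⟩
    have hm' : 2 * k - d = m + 1 := by omega
    rw [hm]
    rw [hm'] at ih'
    have h := Nat.choose_mul_succ_eq m k
    have h2 : 2 * Nat.choose m k ≤ Nat.choose (m + 1) k := by
      apply Nat.le_of_mul_le_mul_right (c := m + 1) _ (by omega)
      have h3 : 2 * (m + 1 - k) ≤ m + 1 := by omega
      calc 2 * Nat.choose m k * (m + 1) = Nat.choose (m + 1) k * (2 * (m + 1 - k)) := by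
            rw [mul_assoc, h]; ring
        _ ≤ _ := Nat.mul_le_mul_left _ h3
    calc 2 ^ (d + 1) * Nat.choose m k = 2 ^ d * (2 * Nat.choose m k) := by ring
      _ ≤ 2 ^ d * Nat.choose (m + 1) k := Nat.mul_le_mul_left _ h2
      _ ≤ _ := ih'

theorem choose_mul_le (m k : ℕ) :
    Nat.choose m k * 4 ^ k ≤ 2 ^ m * Nat.choose (2 * k) k := by
  have h4 : 4 ^ k = 2 ^ (2 * k) := by rw [pow_mul]; norm_num
  rw [h4]
  rcases le_total (2 * k) m with h | h
  · obtain ⟨d, rfl⟩ := Nat.exists_eq_add_of_le h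
    have := choose_up k d
    calc Nat.choose (2 * k + d) k * 2 ^ (2 * k) ≤ (2 ^ d * Nat.choose (2 * k) k) * 2 ^ (2 * k) :=
          Nat.mul_le_mul_right _ this
      _ = _ := by rw [pow_add]; ring
  · obtain ⟨d, hd⟩ := Nat.exists_eq_add_of_le h
    have := choose_down k d (by omega)
    rw [show 2 * k - d = m by omega] at this
    calc Nat.choose m k * 2 ^ (2 * k) = 2 ^ m * (2 ^ d * Nat.choose m k) := by
          conv_lhs => rw [hd, pow_add]
          ring
      _ ≤ _ := Nat.mul_le_mul_left _ this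

theorem two_mul_choose_le (m k : ℕ) (hm : 1 ≤ m) :
    2 * (Nat.choose m k : ℝ) ≤ 2 ^ m * rr (k - 1) := by
  cases k with
  | zero =>
    simp only [Nat.choose_zero_right, Nat.cast_one, mul_one, Nat.zero_sub, rr_zero]
    calc (2 : ℝ) = 2 ^ 1 := by norm_num
      _ ≤ 2 ^ m := pow_le_pow_right₀ (by norm_num) hm
  | succ k =>
    have h := choose_mul_le m (k + 1)
    have h' : (Nat.choose m (k + 1) : ℝ) * 4 ^ (k + 1)
        ≤ 2 ^ m * (Nat.centralBinom (k + 1) : ℝ) := by
      rw [Nat.centralBinom_eq_two_mul_choose]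
      exact_mod_cast h
    simp only [Nat.add_sub_cancel, rr]
    rw [← mul_div_assoc, le_div_iff₀ (by positivity)]
    linarith

/-- LYM inside a ground set `D`, in the form needed -/
theorem lym_rr {α : Type} [DecidableEq α] (D : Finset α) (hD : D.Nonempty)
    (Y : Finset (Finset α)) (hY : ∀ y ∈ Y, y ⊆ D)
    (hanti : ∀ y ∈ Y, ∀ y' ∈ Y, y ⊆ y' → y = y') :
    (∑ y ∈ Y, 1 / rr (y.card - 1)) * 2 ≤ 2 ^ D.card := by
  classical
  let f : Finset α → Finset {x // x ∈ D} := fun y => y.subtype (· ∈ D)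
  have hf : ∀ y ∈ Y, ∀ y' ∈ Y, f y ⊆ f y' → y ⊆ y' := by
    intro y hy y' _ h x hx
    have : (⟨x, hY y hy hx⟩ : {x // x ∈ D}) ∈ f y' := h (by simpa [f] using hx)
    simpa [f] using this
  have hinj : Set.InjOn f Y := by
    intro y hy y' hy' h
    exact Finset.Subset.antisymm (hf y hy y' hy' h.le) (hf y' hy' y hy h.ge)
  have hcard : ∀ y ∈ Y, (f y).card = y.card := by
    intro y hy
    simp only [f, Finset.card_subtype]
    congr 1
    exact Finset.filter_true_of_mem (hY y hy)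
  have hA : IsAntichain (· ⊆ ·) (SetLike.coe (Y.image f)) := by
    intro s hs t ht hne hst
    simp only [coe_image, Set.mem_image, mem_coe] at hs ht
    obtain ⟨y, hy, rfl⟩ := hs
    obtain ⟨y', hy', rfl⟩ := ht
    exact hne (congrArg f (hanti y hy y' hy' (hf y hy y' hy' hst)))
  have hL := Finset.lubell_yamamoto_meshalkin_inequality_sum_inv_choose (𝕜 := ℝ) hA
  rw [Finset.sum_image hinj, Fintype.card_coe] at hL
  have h2 : ∀ y ∈ Y, 1 / rr (y.card - 1) * 2
      ≤ 2 ^ D.card * ((Nat.choose D.card (f y).card : ℝ))⁻¹ := by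
    intro y hy
    rw [hcard y hy]
    have h3 := two_mul_choose_le D.card y.card hD.card_pos
    have h4 : (0 : ℝ) < Nat.choose D.card y.card := by
      exact_mod_cast Nat.choose_pos (Finset.card_le_card (hY y hy))
    have h5 := rr_pos (y.card - 1)
    rw [← div_eq_mul_inv, div_mul_eq_mul_div, div_le_div_iff₀ h5 h4]
    linarith
  rw [Finset.sum_mul]
  calc _ ≤ ∑ y ∈ Y, 2 ^ D.card * ((Nat.choose D.card (f y).card : ℝ))⁻¹ := Finset.sum_le_sum h2
    _ = 2 ^ D.card * ∑ y ∈ Y, ((Nat.choose D.card (f y).card : ℝ))⁻¹ := by rw [Finset.mul_sum]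
    _ ≤ 2 ^ D.card * 1 := mul_le_mul_of_nonneg_left hL (by positivity)
    _ = _ := mul_one _

end Pool.Agent.MP_da4a48_co.H89
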