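import Mathlib
import Pool.Agent.MP_da4a48_co.H89.Num

/-! A weighted LYM inequality for the 0-1 points of an affine subspace. -/

set_option autoImplicit false
set_option linter.unusedSectionVars false

namespace Pool.Agent.MP_da4a48_co.H89

open Finset Module

section general

variable {E F : Type} [AddCommGroup E] [Module ℝ E] [AddCommGroup F] [Module ℝ F]
  [FiniteDimensional ℝ E]

theorem finrank_map_add (W : Submodule ℝ E) (f : E →ₗ[ℝ] F) :
    finrank ℝ (W.map f) + finrank ℝ ↥(W ⊓ LinearMap.ker f) = finrank ℝ W := by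
  have h := LinearMap.finrank_range_add_finrank_ker (f.domRestrict W)
  rw [LinearMap.range_domRestrict, LinearMap.ker_domRestrict] at h
  rw [← h]
  congr 1
  rw [← Submodule.finrank_map_subtype_eq W, Submodule.map_comap_subtype]

theorem finrank_map_mono_add (M' M : Submodule ℝ E) (h : M' ≤ M) (f : E →ₗ[ℝ] F) :
    finrank ℝ (M.map f) + finrank ℝ M' ≤ finrank ℝ (M'.map f) + finrank ℝ M := by
  have h1 := finrank_map_add M f
  have h2 := finrank_map_add M' f
  have h3 : finrank ℝ ↥(M' ⊓ LinearMap.ker f) ≤ finrank ℝ ↥(M ⊓ LinearMap.ker f) :=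
    Submodule.finrank_mono (inf_le_inf_right _ h)
  omega

theorem finrank_inf_add (Z W T : Submodule ℝ E) (h : Z ≤ W) :
    finrank ℝ ↥(W ⊓ T) + finrank ℝ Z ≤ finrank ℝ ↥(Z ⊓ T) + finrank ℝ W := by
  have h1 := Submodule.finrank_sup_add_finrank_inf_eq (W ⊓ T) Z
  have h2 : finrank ℝ ↥((W ⊓ T) ⊔ Z) ≤ finrank ℝ W :=
    Submodule.finrank_mono (sup_le inf_le_left h)
  have h3 : finrank ℝ ↥((W ⊓ T) ⊓ Z) ≤ finrank ℝ ↥(Z ⊓ T) :=
    Submodule.finrank_mono (le_inf inf_le_right (inf_le_left.trans inf_le_right))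
  omega

end general

variable {α : Type} [Fintype α] [DecidableEq α]

/-- vectors supported in `T` -/
def Sup (T : Finset α) : Submodule ℝ (α → ℝ) where
  carrier := {w | ∀ i, i ∉ T → w i = 0}
  add_mem' := by
    intro a b ha hb i hi
    simp [ha i hi, hb i hi]
  zero_mem' := by
    intro i _
    rfl
  smul_mem' := by
    intro c a ha i hi
    simp [ha i hi]

theorem mem_Sup {T : Finset α} {w : α → ℝ} : w ∈ Sup T ↔ ∀ i, i ∉ T → w i = 0 := Iff.rfl

/-- restriction of a vector to `T` -/
def mask (T : Finset α) : (α → ℝ) →ₗ[ℝ] (α → ℝ) where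
  toFun w := fun i => if i ∈ T then w i else 0
  map_add' a b := by
    funext i
    by_cases h : i ∈ T <;> simp [h]
  map_smul' c a := by
    funext i
    by_cases h : i ∈ T <;> simp [h]

theorem mask_apply (T : Finset α) (w : α → ℝ) (i : α) :
    mask T w i = if i ∈ T then w i else 0 := rfl

theorem mask_mask {T T' : Finset α} (h : T' ⊆ T) (w : α → ℝ) :
    mask T' (mask T w) = mask T' w := by
  funext i
  simp only [mask_apply]
  by_cases hi : i ∈ T'
  · simp [hi, h hi]
  · simp [hi]

theorem finrank_Sup_le (T : Finset α) : finrank ℝ (Sup T) ≤ T.card := by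
  let f : Sup T →ₗ[ℝ] ({x // x ∈ T} → ℝ) :=
    { toFun := fun w i => w.1 i.1
      map_add' := fun _ _ => rfl
      map_smul' := fun _ _ => rfl }
  have hf : Function.Injective f := by
    intro w w' h
    apply Subtype.ext
    funext i
    by_cases hi : i ∈ T
    · exact congrFun h ⟨i, hi⟩
    · rw [w.2 i hi, w'.2 i hi]
  have := LinearMap.finrank_le_finrank_of_injective hf
  simpa using this

/-- every vector of `W` has a constant sum over the members of `X` -/
def Const (W : Submodule ℝ (α → ℝ)) (X : Finset (Finset α)) : Prop :=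
  ∀ w ∈ W, ∀ x ∈ X, ∀ x' ∈ X, ∑ i ∈ x, w i = ∑ i ∈ x', w i

theorem dim_bound (S : Finset α) : ∀ (W : Submodule ℝ (α → ℝ)) (X : Finset (Finset α)),
    W ≤ Sup S → (∀ x ∈ X, x ⊆ S) → Const W X → X.card * 2 ^ finrank ℝ W ≤ 2 ^ S.card := by
  induction S using Finset.strongInduction with
  | H S ih =>
    intro W X hW hX hC
    by_cases h0 : W = ⊥
    · subst h0
      simp only [finrank_bot, pow_zero, mul_one]
      rw [← Finset.card_powerset]
      exact Finset.card_le_card fun x hx => Finset.mem_powerset.2 (hX x hx)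
    · obtain ⟨w, hwW, hw0⟩ := Submodule.exists_mem_ne_zero_of_ne_bot h0
      obtain ⟨i, hi⟩ := Function.ne_iff.1 hw0
      have hiS : i ∈ S := by
        by_contra h
        exact hi (hW hwW i h)
      let p : (α → ℝ) →ₗ[ℝ] ℝ := LinearMap.proj i
      have hd : finrank ℝ W ≤ finrank ℝ ↥(W ⊓ LinearMap.ker p) + 1 := by
        have h1 := finrank_map_add W p
        have h2 : finrank ℝ (W.map p) ≤ 1 := by
          simpa using Submodule.finrank_le (W.map p)
        omega
      have hinj : Set.InjOn (fun x : Finset α => x.erase i) X := by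
        intro x hx x' hx' h
        simp only at h
        have h1 := hC w hwW x hx x' hx'
        by_cases a : i ∈ x <;> by_cases b : i ∈ x'
        · rw [← Finset.insert_erase a, ← Finset.insert_erase b, h]
        · exfalso
          rw [← Finset.add_sum_erase _ _ a, h, Finset.erase_eq_of_notMem b] at h1
          exact hi (by simpa using h1)
        · exfalso
          rw [← Finset.add_sum_erase _ _ b, ← h, Finset.erase_eq_of_notMem a] at h1
          exact hi (by simpa using h1)
        · rwa [Finset.erase_eq_of_notMem a, Finset.erase_eq_of_notMem b] at h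
      have key := ih (S.erase i) (Finset.erase_ssubset hiS) (W ⊓ LinearMap.ker p)
        (X.image fun x => x.erase i) ?_ ?_ ?_
      · rw [Finset.card_image_of_injOn hinj, Finset.card_erase_of_mem hiS] at key
        have h3 : S.card = S.card - 1 + 1 := by
          have := Finset.card_pos.2 ⟨i, hiS⟩
          omega
        calc X.card * 2 ^ finrank ℝ W
            ≤ X.card * 2 ^ (finrank ℝ ↥(W ⊓ LinearMap.ker p) + 1) :=
              Nat.mul_le_mul_left _ (Nat.pow_le_pow_right (by norm_num) hd)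
          _ = (X.card * 2 ^ finrank ℝ ↥(W ⊓ LinearMap.ker p)) * 2 := by ring
          _ ≤ 2 ^ (S.card - 1) * 2 := Nat.mul_le_mul_right _ key
          _ = 2 ^ S.card := by conv_rhs => rw [h3, pow_succ]
      · intro u hu j hj
        by_cases hji : j = i
        · subst hji
          exact hu.2
        · exact hW hu.1 j fun h => hj (Finset.mem_erase.2 ⟨hji, h⟩)
      · intro y hy
        obtain ⟨x, hx, rfl⟩ := Finset.mem_image.1 hy
        exact Finset.erase_subset_erase _ (hX x hx)
      · intro u hu y hy y' hy'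
        obtain ⟨x, hx, rfl⟩ := Finset.mem_image.1 hy
        obtain ⟨x', hx', rfl⟩ := Finset.mem_image.1 hy'
        have hu0 : u i = 0 := hu.2
        rw [Finset.sum_erase _ hu0, Finset.sum_erase _ hu0]
        exact hC u hu.1 x hx x' hx'

/-- a nonnegative vector of minimal support -/
theorem exists_min_vec (W : Submodule ℝ (α → ℝ)) (P : Finset α) (hP : P.Nonempty)
    (p : α → ℝ) (hpW : p ∈ W) (hp : ∀ i ∈ P, 0 < p i) (hp0 : ∀ i, i ∉ P → p i = 0) :
    ∃ (D : Finset α) (v : α → ℝ), D.Nonempty ∧ D ⊆ P ∧ v ∈ W ∧ (∀ i ∈ D, 0 < v i) ∧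
      (∀ i, i ∉ D → v i = 0) ∧ ∀ w ∈ W, (∀ i, i ∉ D → w i = 0) → ∃ c : ℝ, w = c • v := by
  classical
  let good : Finset α → Prop := fun D => D.Nonempty ∧ D ⊆ P ∧
    ∃ v ∈ W, (∀ i ∈ D, 0 < v i) ∧ (∀ i, i ∉ D → v i = 0)
  obtain ⟨D, hD, hmin⟩ := Finset.exists_min_image (univ.filter good) Finset.card
    ⟨P, by simp only [mem_filter, mem_univ, true_and]; exact ⟨hP, le_rfl, p, hpW, hp, hp0⟩⟩
  simp only [mem_filter, mem_univ, true_and] at hD hmin
  obtain ⟨hne, hDP, v, hvW, hv, hv0⟩ := hD
  refine ⟨D, v, hne, hDP, hvW, hv, hv0, fun w hw hw0 => ?_⟩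
  obtain ⟨j, hj, hjmin⟩ := Finset.exists_min_image D (fun i => w i / v i) hne
  refine ⟨w j / v j, ?_⟩
  set u : α → ℝ := w - (w j / v j) • v with hu
  have huW : u ∈ W := W.sub_mem hw (W.smul_mem _ hvW)
  have hu0 : ∀ i, i ∉ D → u i = 0 := fun i hi => by simp [hu, hw0 i hi, hv0 i hi]
  have hun : ∀ i ∈ D, 0 ≤ u i := fun i hi => by
    have h1 := hjmin i hi
    have h2 := hv i hi
    rw [le_div_iff₀ h2] at h1
    simp only [hu, Pi.sub_apply, Pi.smul_apply, smul_eq_mul]
    linarith
  have huj : u j = 0 := by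
    have h2 := hv j hj
    simp only [hu, Pi.sub_apply, Pi.smul_apply, smul_eq_mul]
    field_simp
    ring
  by_contra hne'
  have hune : u ≠ 0 := fun h => hne' (sub_eq_zero.1 h)
  obtain ⟨k, hk⟩ := Function.ne_iff.1 hune
  let D' := D.filter fun i => 0 < u i
  have hkD : k ∈ D := by
    by_contra h
    exact hk (hu0 k h)
  have hgood : good D' := by
    refine ⟨⟨k, Finset.mem_filter.2 ⟨hkD, lt_of_le_of_ne (hun k hkD) (Ne.symm hk)⟩⟩,
      (Finset.filter_subset _ _).trans hDP, u, huW, fun i hi => (Finset.mem_filter.1 hi).2,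
      fun i hi => ?_⟩
    by_cases hiD : i ∈ D
    · have : ¬ 0 < u i := fun h => hi (Finset.mem_filter.2 ⟨hiD, h⟩)
      exact le_antisymm (not_lt.1 this) (hun i hiD)
    · exact hu0 i hiD
  have h1 := hmin D' hgood
  have h2 : D'.card < D.card := by
    apply Finset.card_lt_card
    refine ⟨Finset.filter_subset _ _, fun h => ?_⟩
    have := (Finset.mem_filter.1 (h hj)).2
    rw [huj] at this
    exact lt_irrefl _ this
  omega

/-- rank of the coordinate set `x ∩ P` on the vectors of `W` supported in `P` -/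
noncomputable def rk (W : Submodule ℝ (α → ℝ)) (P x : Finset α) : ℕ :=
  finrank ℝ ((W ⊓ Sup P).map (mask (x ∩ P)))

theorem rk_step (W : Submodule ℝ (α → ℝ)) (S P D x : Finset α) (hDP : D ⊆ P) (hPS : P ⊆ S)
    (hW : W ≤ Sup S) (v : α → ℝ) (hvW : v ∈ W) (hv : ∀ i ∈ D, 0 < v i)
    (hv0 : ∀ i, i ∉ D → v i = 0) :
    rk (W.map (mask (S \ D))) (P \ D) (x \ D) + (if (x ∩ D).Nonempty then 1 else 0)
      ≤ rk W P x := by
  unfold rk
  set T := x ∩ P with hT
  set T' := (x \ D) ∩ (P \ D) with hT'
  set Y := (W ⊓ Sup P).map (mask T) with hY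
  have hTT : T' ⊆ T := by
    intro i hi
    simp only [hT', hT, mem_inter, mem_sdiff] at hi ⊢
    exact ⟨hi.1.1, hi.2.1⟩
  have hTS : T' ⊆ S \ D := by
    intro i hi
    simp only [hT', mem_inter, mem_sdiff] at hi ⊢
    exact ⟨hPS hi.2.1, hi.2.2⟩
  have h1 : (W.map (mask (S \ D)) ⊓ Sup (P \ D)).map (mask T') ≤ Y.map (mask T') := by
    rintro _ ⟨u, ⟨⟨w, hw, rfl⟩, hu⟩, rfl⟩
    refine ⟨mask T w, ⟨w, ⟨hw, fun i hi => ?_⟩, rfl⟩, ?_⟩
    · by_cases hiS : i ∈ S
      · have hiD : i ∉ D := fun h => hi (hDP h)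
        have := hu i (fun h => hi (Finset.mem_sdiff.1 h).1)
        rwa [mask_apply, if_pos (Finset.mem_sdiff.2 ⟨hiS, hiD⟩)] at this
      · exact hW hw i hiS
    · rw [mask_mask hTT, mask_mask hTS]
  have h2 := Submodule.finrank_mono h1
  have h3 := finrank_map_add Y (mask T')
  split_ifs with hne
  · obtain ⟨j, hj⟩ := hne
    have hjx := (Finset.mem_inter.1 hj).1
    have hjD := (Finset.mem_inter.1 hj).2
    have h4 : 1 ≤ finrank ℝ ↥(Y ⊓ LinearMap.ker (mask T')) := by
      rw [Submodule.one_le_finrank_iff, Submodule.ne_bot_iff]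
      refine ⟨mask T v, ⟨⟨v, ⟨hvW, fun i hi => hv0 i fun h => hi (hDP h)⟩, rfl⟩, ?_⟩, ?_⟩
      · rw [SetLike.mem_coe, LinearMap.mem_ker, mask_mask hTT]
        funext i
        rw [mask_apply]
        split_ifs with hi
        · exact hv0 i (Finset.mem_sdiff.1 (hTS hi)).2
        · rfl
      · intro h
        have := congrFun h j
        rw [mask_apply, if_pos (Finset.mem_inter.2 ⟨hjx, hDP hjD⟩)] at this
        exact (hv j hjD).ne' this
    omega
  · omega

theorem weighted_lym (P : Finset α) : ∀ (S : Finset α) (W : Submodule ℝ (α → ℝ))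
    (X : Finset (Finset α)), P ⊆ S → W ≤ Sup S → (∀ x ∈ X, x ⊆ S) → Const W X →
    (∃ p ∈ W, (∀ i ∈ P, 0 < p i) ∧ ∀ i, i ∉ P → p i = 0) →
    (∑ x ∈ X, 1 / rr ((x ∩ P).card - rk W P x)) * 2 ^ finrank ℝ W ≤ 2 ^ S.card := by
  induction P using Finset.strongInduction with
  | H P ih =>
    intro S W X hPS hW hX hC hp
    rcases P.eq_empty_or_nonempty with rfl | hP
    · simp only [inter_empty, card_empty, Nat.zero_sub, rr_zero, div_one, sum_const,
        nsmul_eq_mul, mul_one]
      exact_mod_cast dim_bound S W X hW hX hC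
    obtain ⟨p, hpW, hp, hp0⟩ := hp
    obtain ⟨D, v, hD, hDP, hvW, hv, hv0, hmin⟩ := exists_min_vec W P hP p hpW hp hp0
    have hDS : D ⊆ S := hDP.trans hPS
    set W' := W.map (mask (S \ D)) with hW'
    have hdim : finrank ℝ W ≤ finrank ℝ W' + 1 := by
      have h1 := finrank_map_add W (mask (S \ D))
      have h2 : W ⊓ LinearMap.ker (mask (S \ D)) ≤ Submodule.span ℝ {v} := by
        rintro w ⟨hw, hk⟩
        obtain ⟨c, rfl⟩ := hmin w hw (fun i hi => by
          by_cases hiS : i ∈ S
          · have := congrFun (LinearMap.mem_ker.1 hk) i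
            rwa [mask_apply, if_pos (Finset.mem_sdiff.2 ⟨hiS, hi⟩)] at this
          · exact hW hw i hiS)
        exact Submodule.smul_mem _ _ (Submodule.mem_span_singleton_self v)
      have h3 := Submodule.finrank_mono h2
      have h4 : finrank ℝ (Submodule.span ℝ ({v} : Set (α → ℝ))) ≤ 1 := by
        simpa using finrank_span_le_card (R := ℝ) ({v} : Set (α → ℝ))
      rw [← hW'] at h1
      omega
    -- the bound on each fibre
    have hfib : ∀ y ∈ X.image (· ∩ D),
        (∑ x ∈ X with x ∩ D = y, 1 / rr ((x ∩ P).card - rk W P x)) * 2 ^ finrank ℝ W'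
          ≤ 1 / rr (y.card - 1) * 2 ^ (S \ D).card := by
      intro y _
      have hinj : Set.InjOn (fun x : Finset α => x \ D) (X.filter fun x => x ∩ D = y) := by
        intro x hx x' hx' h
        simp only [coe_filter, Set.mem_ofPred_eq] at hx hx' h
        rw [← Finset.sdiff_union_inter x D, ← Finset.sdiff_union_inter x' D, h, hx.2, hx'.2]
      have key := ih (P \ D) (Finset.sdiff_ssubset hDP hD) (S \ D) W'
        ((X.filter fun x => x ∩ D = y).image fun x => x \ D)
        (Finset.sdiff_subset_sdiff hPS le_rfl) ?_ ?_ ?_ ?_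
      · rw [Finset.sum_image hinj] at key
        have h1 : ∑ x ∈ X with x ∩ D = y, 1 / rr ((x ∩ P).card - rk W P x)
            ≤ ∑ x ∈ X with x ∩ D = y, 1 / rr (y.card - 1) *
              (1 / rr (((x \ D) ∩ (P \ D)).card - rk W' (P \ D) (x \ D))) := by
          apply Finset.sum_le_sum
          intro x hx
          have hxy := (Finset.mem_filter.1 hx).2
          have h2 := rk_step W S P D x hDP hPS hW v hvW hv hv0
          rw [← hW', hxy] at h2
          have h3 : (x ∩ P).card = y.card + ((x \ D) ∩ (P \ D)).card := by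
            rw [← hxy, ← Finset.card_union_of_disjoint]
            · congr 1
              ext i
              simp only [mem_inter, mem_union, mem_sdiff]
              constructor
              · rintro ⟨a, b⟩
                by_cases c : i ∈ D
                · exact Or.inl ⟨a, c⟩
                · exact Or.inr ⟨⟨a, c⟩, b, c⟩
              · rintro (⟨a, b⟩ | ⟨⟨a, _⟩, b, _⟩)
                · exact ⟨a, hDP b⟩
                · exact ⟨a, b⟩
            · rw [Finset.disjoint_left]
              intro i hi hi'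
              simp only [mem_inter, mem_sdiff] at hi hi'
              exact hi'.1.2 hi.2
          have h4 : (x ∩ P).card - rk W P x ≤ (y.card - 1) +
              (((x \ D) ∩ (P \ D)).card - rk W' (P \ D) (x \ D)) := by
            split_ifs at h2 with hy
            · omega
            · rw [Finset.not_nonempty_iff_eq_empty] at hy
              rw [hy] at h3 ⊢
              simp only [card_empty] at h3 ⊢
              omega
          rw [one_div_mul_one_div]
          apply one_div_le_one_div_of_le (mul_pos (rr_pos _) (rr_pos _))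
          exact (rr_mul_le _ _).trans (rr_anti h4)
        rw [← Finset.mul_sum] at h1
        have h5 : 0 ≤ 1 / rr (y.card - 1) := (one_div_pos.2 (rr_pos _)).le
        calc _ ≤ (1 / rr (y.card - 1) * ∑ x ∈ X with x ∩ D = y,
              (1 / rr (((x \ D) ∩ (P \ D)).card - rk W' (P \ D) (x \ D)))) * 2 ^ finrank ℝ W' :=
              mul_le_mul_of_nonneg_right h1 (by positivity)
          _ ≤ _ := by
              rw [mul_assoc]
              exact mul_le_mul_of_nonneg_left key h5
      · rintro _ ⟨w, _, rfl⟩ i hi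
        rw [mask_apply, if_neg hi]
      · intro z hz
        obtain ⟨x, hx, rfl⟩ := Finset.mem_image.1 hz
        exact Finset.sdiff_subset_sdiff (hX x (Finset.mem_filter.1 hx).1) le_rfl
      · rintro _ ⟨w, hw, rfl⟩ z hz z' hz'
        obtain ⟨x, hx, rfl⟩ := Finset.mem_image.1 hz
        obtain ⟨x', hx', rfl⟩ := Finset.mem_image.1 hz'
        obtain ⟨hx1, hx2⟩ := Finset.mem_filter.1 hx
        obtain ⟨hx1', hx2'⟩ := Finset.mem_filter.1 hx'
        have e : ∀ x ∈ X, ∑ i ∈ x \ D, mask (S \ D) w i = ∑ i ∈ x, w i - ∑ i ∈ x ∩ D, w i := by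
          intro x hx
          rw [← Finset.sum_inter_add_sum_sdiff x D w, add_sub_cancel_left]
          refine Finset.sum_congr rfl fun i hi => ?_
          rw [mask_apply, if_pos (Finset.sdiff_subset_sdiff (hX x hx) le_rfl hi)]
        rw [e x hx1, e x' hx1', hx2, hx2', hC w hw x hx1 x' hx1']
      · refine ⟨mask (S \ D) p, ⟨p, hpW, rfl⟩, fun i hi => ?_, fun i hi => ?_⟩
        · rw [mask_apply, if_pos (Finset.sdiff_subset_sdiff hPS le_rfl hi)]
          exact hp i (Finset.mem_sdiff.1 hi).1
        · rw [mask_apply]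
          split_ifs with h
          · exact hp0 i fun h' => hi (Finset.mem_sdiff.2 ⟨h', (Finset.mem_sdiff.1 h).2⟩)
          · rfl
    -- LYM on the traces on `D`
    have hlym := lym_rr D hD (X.image (· ∩ D)) (by
      intro y hy
      obtain ⟨x, _, rfl⟩ := Finset.mem_image.1 hy
      exact Finset.inter_subset_right) (by
      intro y hy y' hy' hsub
      obtain ⟨x, hx, rfl⟩ := Finset.mem_image.1 hy
      obtain ⟨x', hx', rfl⟩ := Finset.mem_image.1 hy'
      have e : ∀ x : Finset α, ∑ i ∈ x ∩ D, v i = ∑ i ∈ x, v i := by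
        intro x
        apply Finset.sum_subset Finset.inter_subset_left
        intro i hi hi'
        exact hv0 i fun h => hi' (Finset.mem_inter.2 ⟨hi, h⟩)
      by_contra hne
      have hss : x ∩ D ⊂ x' ∩ D := lt_of_le_of_ne hsub hne
      obtain ⟨j, hj, hj'⟩ := Finset.exists_of_ssubset hss
      have hlt : ∑ i ∈ x ∩ D, v i < ∑ i ∈ x' ∩ D, v i :=
        Finset.sum_lt_sum_of_subset hsub hj hj' (hv j (Finset.mem_inter.1 hj).2)
          (fun i hi _ => (hv i (Finset.mem_inter.1 hi).2).le)
      rw [e, e, hC v hvW x hx x' hx'] at hlt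
      exact lt_irrefl _ hlt)
    have hsum : (∑ x ∈ X, 1 / rr ((x ∩ P).card - rk W P x)) * 2 ^ finrank ℝ W'
        ≤ (∑ y ∈ X.image (· ∩ D), 1 / rr (y.card - 1)) * 2 ^ (S \ D).card := by
      rw [← Finset.sum_fiberwise_of_maps_to (s := X) (t := X.image (· ∩ D)) (g := (· ∩ D))
        (fun x hx => Finset.mem_image_of_mem _ hx), Finset.sum_mul, Finset.sum_mul]
      exact Finset.sum_le_sum hfib
    have hnn : 0 ≤ ∑ x ∈ X, 1 / rr ((x ∩ P).card - rk W P x) :=
      Finset.sum_nonneg fun x _ => (one_div_pos.2 (rr_pos _)).le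
    have hcard : S.card = D.card + (S \ D).card := by
      rw [Finset.card_sdiff_of_subset hDS]
      have := Finset.card_le_card hDS
      omega
    calc (∑ x ∈ X, 1 / rr ((x ∩ P).card - rk W P x)) * 2 ^ finrank ℝ W
        ≤ (∑ x ∈ X, 1 / rr ((x ∩ P).card - rk W P x)) * 2 ^ (finrank ℝ W' + 1) :=
          mul_le_mul_of_nonneg_left (pow_le_pow_right₀ (by norm_num) hdim) hnn
      _ = ((∑ x ∈ X, 1 / rr ((x ∩ P).card - rk W P x)) * 2 ^ finrank ℝ W') * 2 := by ring
      _ ≤ ((∑ y ∈ X.image (· ∩ D), 1 / rr (y.card - 1)) * 2 ^ (S \ D).card) * 2 :=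
          mul_le_mul_of_nonneg_right hsum (by norm_num)
      _ = ((∑ y ∈ X.image (· ∩ D), 1 / rr (y.card - 1)) * 2) * 2 ^ (S \ D).card := by ring
      _ ≤ 2 ^ D.card * 2 ^ (S \ D).card := mul_le_mul_of_nonneg_right hlym (by positivity)
      _ = 2 ^ S.card := by rw [hcard, pow_add]

end Pool.Agent.MP_da4a48_co.H89
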