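import Mathlib
import Pool.Agent.MP_da4a48_co.H89.Lin

/-! The upper bound for families with constant cross-intersection size. -/

set_option autoImplicit false
set_option linter.unusedSectionVars false

namespace Pool.Agent.MP_da4a48_co.H89

open Finset Module

variable {α : Type} [Fintype α] [DecidableEq α]

theorem le_finrank_Sup (T : Finset α) : T.card ≤ finrank ℝ (Sup T) := by
  let f : ({x // x ∈ T} → ℝ) →ₗ[ℝ] Sup T :=
    { toFun := fun w => ⟨fun i => if h : i ∈ T then w ⟨i, h⟩ else 0, fun i hi => dif_neg hi⟩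
      map_add' := fun a b => by
        apply Subtype.ext
        funext i
        by_cases h : i ∈ T <;> simp [h]
      map_smul' := fun c a => by
        apply Subtype.ext
        funext i
        by_cases h : i ∈ T <;> simp [h] }
  have hf : Function.Injective f := by
    intro w w' h
    funext i
    have := congrFun (congrArg Subtype.val h) i.1
    simpa [f, i.2] using this
  have := LinearMap.finrank_le_finrank_of_injective hf
  simpa using this

/-- vectors with constant sum over the members of `A` -/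
def CW (A : Finset (Finset α)) : Submodule ℝ (α → ℝ) where
  carrier := {w | ∀ x ∈ A, ∀ x' ∈ A, ∑ i ∈ x, w i = ∑ i ∈ x', w i}
  add_mem' := by
    intro a b ha hb x hx x' hx'
    simp only [Pi.add_apply, Finset.sum_add_distrib]
    rw [ha x hx x' hx', hb x hx x' hx']
  zero_mem' := by
    intro x _ x' _
    simp
  smul_mem' := by
    intro c a ha x hx x' hx'
    simp only [Pi.smul_apply, smul_eq_mul, ← Finset.mul_sum]
    rw [ha x hx x' hx']

/-- indicator vector -/
def chi (b : Finset α) : α → ℝ := fun i => if i ∈ b then 1 else 0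

theorem sum_chi (a b : Finset α) : ∑ i ∈ a, chi b i = ((a ∩ b).card : ℝ) := by
  unfold chi
  rw [Finset.sum_boole, Finset.filter_mem_eq_inter]

theorem sum_mul_chi (z : α → ℝ) (b : Finset α) : ∑ i, z i * chi b i = ∑ i ∈ b, z i := by
  unfold chi
  simp only [mul_ite, mul_one, mul_zero]
  rw [← Finset.sum_filter]
  congr 1
  ext i
  simp

/-- the dot product with the vectors of `W` -/
def dotW (W : Submodule ℝ (α → ℝ)) : (α → ℝ) →ₗ[ℝ] Module.Dual ℝ W :=
  LinearMap.mk₂ ℝ (fun (z : α → ℝ) (w : W) => ∑ i, z i * w.1 i)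
    (fun a b w => by simp [add_mul, Finset.sum_add_distrib])
    (fun c a w => by simp [Finset.mul_sum, mul_assoc])
    (fun a b w => by simp [mul_add, Finset.sum_add_distrib])
    (fun c a w => by simp [Finset.mul_sum, mul_left_comm])

theorem mem_ker_dotW (W : Submodule ℝ (α → ℝ)) (z : α → ℝ) :
    z ∈ LinearMap.ker (dotW W) ↔ ∀ w ∈ W, ∑ i, z i * w i = 0 := by
  rw [LinearMap.mem_ker]
  constructor
  · intro h w hw
    exact LinearMap.congr_fun h ⟨w, hw⟩
  · intro h
    ext w
    exact h w.1 w.2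

theorem finrank_perp (S : Finset α) (W : Submodule ℝ (α → ℝ)) :
    S.card ≤ finrank ℝ ↥(Sup S ⊓ LinearMap.ker (dotW W)) + finrank ℝ W := by
  have h1 := finrank_map_add (Sup S) (dotW W)
  have h2 : finrank ℝ ((Sup S).map (dotW W)) ≤ finrank ℝ W := by
    have := Submodule.finrank_le ((Sup S).map (dotW W))
    rwa [Subspace.dual_finrank_eq] at this
  have h3 := le_finrank_Sup S
  omega

theorem finrank_orth (T : Finset α) (Y Y' : Submodule ℝ (α → ℝ)) (hY : Y ≤ Sup T)
    (hY' : Y' ≤ Sup T) (h : ∀ y ∈ Y, ∀ y' ∈ Y', ∑ i, y' i * y i = 0) :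
    finrank ℝ Y + finrank ℝ Y' ≤ T.card := by
  have h1 := Submodule.finrank_sup_add_finrank_inf_eq Y Y'
  have h2 : Y ⊓ Y' = ⊥ := by
    rw [eq_bot_iff]
    rintro y ⟨a, b⟩
    have h3 := h y a y b
    rw [Finset.sum_eq_zero_iff_of_nonneg (fun i _ => mul_self_nonneg (y i))] at h3
    rw [Submodule.mem_bot]
    funext i
    exact mul_self_eq_zero.1 (h3 i (mem_univ i))
  rw [h2, finrank_bot] at h1
  have h4 : finrank ℝ ↥(Y ⊔ Y') ≤ finrank ℝ (Sup T) := Submodule.finrank_mono (sup_le hY hY')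
  have h5 := finrank_Sup_le T
  omega

section main

variable (S : Finset α) (A B : Finset (Finset α)) (l : ℕ)
  (hA : ∀ a ∈ A, a ⊆ S) (hB : ∀ b ∈ B, b ⊆ S) (hAB : ∀ a ∈ A, ∀ b ∈ B, (a ∩ b).card = l)
include hA hB hAB

omit hA in
theorem chi_mem (b : Finset α) (hb : b ∈ B) : chi b ∈ CW A ⊓ Sup S := by
  refine ⟨fun x hx x' hx' => ?_, fun i hi => if_neg fun h => hi (hB b hb h)⟩
  rw [sum_chi, sum_chi, hAB x hx b hb, hAB x' hx' b hb]

theorem one_side (b : Finset α) (hb : b ∈ B) :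
    (∑ a ∈ A, 1 / rr (l - rk (CW A ⊓ Sup S) b a)) * 2 ^ finrank ℝ ↥(CW A ⊓ Sup S)
      ≤ 2 ^ S.card := by
  have h := weighted_lym b S (CW A ⊓ Sup S) A (hB b hb) inf_le_right hA
    (fun w hw => hw.1) ⟨chi b, chi_mem S A B l hB hAB b hb,
      fun i hi => by simp [chi, hi], fun i hi => by simp [chi, hi]⟩
  rwa [Finset.sum_congr rfl (fun a ha => by rw [hAB a ha b hb])] at h

omit hA in
theorem perp_le : Sup S ⊓ LinearMap.ker (dotW (CW A ⊓ Sup S)) ≤ CW B ⊓ Sup S := by
  rintro z ⟨hz, hk⟩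
  refine ⟨fun b hb b' hb' => ?_, hz⟩
  rw [SetLike.mem_coe, mem_ker_dotW] at hk
  rw [← sum_mul_chi z b, ← sum_mul_chi z b', hk _ (chi_mem S A B l hB hAB b hb),
    hk _ (chi_mem S A B l hB hAB b' hb')]

theorem dims_ge (hl : 1 ≤ l) (hAne : A.Nonempty) (hBne : B.Nonempty) :
    S.card + 1 ≤ finrank ℝ ↥(CW A ⊓ Sup S) + finrank ℝ ↥(CW B ⊓ Sup S) := by
  obtain ⟨a, ha⟩ := hAne
  obtain ⟨b, hb⟩ := hBne
  have h1 := finrank_perp S (CW A ⊓ Sup S)
  have h2 : Sup S ⊓ LinearMap.ker (dotW (CW A ⊓ Sup S)) < CW B ⊓ Sup S := by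
    refine lt_of_le_of_ne (perp_le S A B l hB hAB) fun h => ?_
    have h3 : chi a ∈ CW B ⊓ Sup S := chi_mem S B A l hA
      (fun b hb a ha => by rw [Finset.inter_comm]; exact hAB a ha b hb) a ha
    rw [← h] at h3
    have h4 := (mem_ker_dotW _ _).1 h3.2 _ (chi_mem S A B l hB hAB b hb)
    rw [sum_mul_chi, sum_chi, Finset.inter_comm, hAB a ha b hb] at h4
    have : l = 0 := by exact_mod_cast h4
    omega
  have h3 := Submodule.finrank_lt_finrank_of_lt h2
  omega

omit hA in
theorem rk_add_rk (a b : Finset α) (ha : a ∈ A) (hb : b ∈ B) :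
    rk (CW A ⊓ Sup S) b a + rk (CW B ⊓ Sup S) a b + S.card
      ≤ l + finrank ℝ ↥(CW A ⊓ Sup S) + finrank ℝ ↥(CW B ⊓ Sup S) := by
  unfold rk
  rw [Finset.inter_comm b a]
  set Z := Sup S ⊓ LinearMap.ker (dotW (CW A ⊓ Sup S)) with hZ
  have hZle : Z ≤ CW B ⊓ Sup S := perp_le S A B l hB hAB
  have h1 := finrank_perp S (CW A ⊓ Sup S)
  have h2 := finrank_inf_add Z (CW B ⊓ Sup S) (Sup a) hZle
  have h3 := finrank_map_mono_add (Z ⊓ Sup a) ((CW B ⊓ Sup S) ⊓ Sup a)
    (inf_le_inf_right _ hZle) (mask (a ∩ b))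
  have h4 := finrank_orth (a ∩ b) (((CW A ⊓ Sup S) ⊓ Sup b).map (mask (a ∩ b)))
    ((Z ⊓ Sup a).map (mask (a ∩ b))) ?_ ?_ ?_
  · rw [hAB a ha b hb] at h4
    rw [← hZ] at h1
    omega
  · rintro _ ⟨w, _, rfl⟩ i hi
    rw [mask_apply, if_neg hi]
  · rintro _ ⟨w, _, rfl⟩ i hi
    rw [mask_apply, if_neg hi]
  · rintro _ ⟨w, ⟨hw, hwb⟩, rfl⟩ _ ⟨z, ⟨hz, hza⟩, rfl⟩
    rw [← (mem_ker_dotW _ _).1 hz.2 w hw]
    refine Finset.sum_congr rfl fun i _ => ?_
    simp only [mask_apply, Finset.mem_inter]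
    by_cases h1 : i ∈ a
    · by_cases h2 : i ∈ b
      · simp [h1, h2]
      · simp [h2, hwb i h2]
    · simp [h1, hza i h1]

theorem main_real (hl : 1 ≤ l) (hAne : A.Nonempty) (hBne : B.Nonempty) :
    (A.card * B.card : ℝ) * 2 ≤ 2 ^ S.card * rr (l - 1) := by
  have hBA : ∀ b ∈ B, ∀ a ∈ A, (b ∩ a).card = l :=
    fun b hb a ha => by rw [Finset.inter_comm]; exact hAB a ha b hb
  set dA := finrank ℝ ↥(CW A ⊓ Sup S) with hdA
  set dB := finrank ℝ ↥(CW B ⊓ Sup S) with hdB
  obtain ⟨k, hk⟩ := Nat.exists_eq_add_of_le (dims_ge S A B l hA hB hAB hl hAne hBne)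
  rw [← hdA, ← hdB] at hk
  set Q := rr (l - 1 - k) with hQ
  have hQpos : 0 < Q := rr_pos _
  let f : Finset α × Finset α → ℝ := fun p => 1 / rr (l - rk (CW A ⊓ Sup S) p.2 p.1)
  let g : Finset α × Finset α → ℝ := fun p => 1 / rr (l - rk (CW B ⊓ Sup S) p.1 p.2)
  have hcs := Finset.sum_sq_le_sum_mul_sum_of_sq_le_mul (A ×ˢ B)
    (r := fun _ => 1 / Real.sqrt Q) (f := f) (g := g)
    (fun p _ => (one_div_pos.2 (rr_pos _)).le) (fun p _ => (one_div_pos.2 (rr_pos _)).le) (by
      intro p hp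
      obtain ⟨ha, hb⟩ := Finset.mem_product.1 hp
      have h1 := rk_add_rk S A B l hB hAB p.1 p.2 ha hb
      rw [← hdA, ← hdB] at h1
      simp only [f, g]
      rw [div_pow, one_pow, Real.sq_sqrt hQpos.le, one_div_mul_one_div]
      apply one_div_le_one_div_of_le (mul_pos (rr_pos _) (rr_pos _))
      refine (rr_mul_le _ _).trans (rr_anti ?_)
      omega)
  rw [Finset.sum_const, Finset.card_product, nsmul_eq_mul, mul_pow, div_pow, one_pow,
    Real.sq_sqrt hQpos.le] at hcs
  have hf : (∑ p ∈ A ×ˢ B, f p) * 2 ^ dA ≤ B.card * 2 ^ S.card := by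
    rw [Finset.sum_product_right, Finset.sum_mul]
    calc _ ≤ ∑ _b ∈ B, (2 : ℝ) ^ S.card :=
          Finset.sum_le_sum fun b hb => one_side S A B l hA hB hAB b hb
      _ = _ := by rw [Finset.sum_const, nsmul_eq_mul]
  have hg : (∑ p ∈ A ×ˢ B, g p) * 2 ^ dB ≤ A.card * 2 ^ S.card := by
    rw [Finset.sum_product, Finset.sum_mul]
    calc _ ≤ ∑ _a ∈ A, (2 : ℝ) ^ S.card :=
          Finset.sum_le_sum fun a ha => one_side S B A l hB hA hBA a ha
      _ = _ := by rw [Finset.sum_const, nsmul_eq_mul]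
  have hfn : 0 ≤ ∑ p ∈ A ×ˢ B, f p :=
    Finset.sum_nonneg fun p _ => (one_div_pos.2 (rr_pos _)).le
  have hgn : 0 ≤ ∑ p ∈ A ×ˢ B, g p :=
    Finset.sum_nonneg fun p _ => (one_div_pos.2 (rr_pos _)).le
  set N : ℝ := A.card * B.card with hN
  have hNpos : 0 < N := by
    have h1 : (0 : ℝ) < A.card := by exact_mod_cast hAne.card_pos
    have h2 : (0 : ℝ) < B.card := by exact_mod_cast hBne.card_pos
    positivity
  have hprod : ((∑ p ∈ A ×ˢ B, f p) * ∑ p ∈ A ×ˢ B, g p) * 2 ^ (dA + dB)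
      ≤ N * (2 ^ S.card * 2 ^ S.card) := by
    calc _ = ((∑ p ∈ A ×ˢ B, f p) * 2 ^ dA) * ((∑ p ∈ A ×ˢ B, g p) * 2 ^ dB) := by
          rw [pow_add]; ring
      _ ≤ (B.card * 2 ^ S.card) * (A.card * 2 ^ S.card) :=
          mul_le_mul hf hg (mul_nonneg hgn (pow_nonneg zero_le_two _))
            (mul_nonneg (Nat.cast_nonneg _) (pow_nonneg zero_le_two _))
      _ = _ := by rw [hN]; ring
  push_cast at hcs
  rw [← hN] at hcs
  have h1 : N ^ 2 * (1 / Q) * 2 ^ (dA + dB) ≤ N * (2 ^ S.card * 2 ^ S.card) :=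
    (mul_le_mul_of_nonneg_right hcs (by positivity)).trans hprod
  rw [hk, pow_add, pow_add, pow_one] at h1
  have h2 : N * 2 * 2 ^ k ≤ 2 ^ S.card * Q := by
    have h3 : (0 : ℝ) < N * 2 ^ S.card / Q := by positivity
    apply le_of_mul_le_mul_right _ h3
    calc N * 2 * 2 ^ k * (N * 2 ^ S.card / Q)
        = N ^ 2 * (1 / Q) * (2 ^ S.card * 2 * 2 ^ k) := by ring
      _ ≤ N * (2 ^ S.card * 2 ^ S.card) := h1
      _ = 2 ^ S.card * Q * (N * 2 ^ S.card / Q) := by field_simp
  have h4 := rr_sub_le (l - 1) k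
  rw [← hQ] at h4
  have h5 : N * 2 * 2 ^ k ≤ 2 ^ S.card * rr (l - 1) * 2 ^ k := by
    calc _ ≤ 2 ^ S.card * Q := h2
      _ ≤ 2 ^ S.card * (2 ^ k * rr (l - 1)) := mul_le_mul_of_nonneg_left h4 (by positivity)
      _ = _ := by ring
  exact le_of_mul_le_mul_right h5 (by positivity)

theorem main_nat : A.card * B.card * 4 ^ l ≤ 2 ^ S.card * Nat.choose (2 * l) l := by
  rcases A.eq_empty_or_nonempty with rfl | hAne
  · simp
  rcases B.eq_empty_or_nonempty with rfl | hBne
  · simp
  cases l with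
  | zero =>
    simp only [pow_zero, mul_one, mul_zero, Nat.choose_self]
    let T := A.biUnion id
    have hTS : T ⊆ S := Finset.biUnion_subset.2 hA
    have h1 : A.card ≤ 2 ^ T.card := by
      rw [← Finset.card_powerset]
      exact Finset.card_le_card fun a ha =>
        Finset.mem_powerset.2 (Finset.subset_biUnion_of_mem id ha)
    have h2 : B.card ≤ 2 ^ (S \ T).card := by
      rw [← Finset.card_powerset]
      refine Finset.card_le_card fun b hb => Finset.mem_powerset.2 fun i hi => ?_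
      refine Finset.mem_sdiff.2 ⟨hB b hb hi, fun h => ?_⟩
      obtain ⟨a, ha, hia⟩ := Finset.mem_biUnion.1 h
      have := Finset.card_eq_zero.1 (hAB a ha b hb)
      exact Finset.notMem_empty i (this ▸ Finset.mem_inter.2 ⟨hia, hi⟩)
    calc A.card * B.card ≤ 2 ^ T.card * 2 ^ (S \ T).card := Nat.mul_le_mul h1 h2
      _ = 2 ^ S.card := by
        rw [← pow_add, Finset.card_sdiff_of_subset hTS]
        congr 1
        have := Finset.card_le_card hTS
        omega
  | succ l =>
    have h := main_real S A B (l + 1) hA hB hAB (by omega) hAne hBne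
    simp only [Nat.add_sub_cancel, rr] at h
    rw [← mul_div_assoc, le_div_iff₀ (by positivity), Nat.centralBinom_eq_two_mul_choose] at h
    have h2 : ((A.card * B.card * 4 ^ (l + 1) : ℕ) : ℝ)
        ≤ ((2 ^ S.card * Nat.choose (2 * (l + 1)) (l + 1) : ℕ) : ℝ) := by
      push_cast
      linarith
    exact_mod_cast h2

end main

theorem small_bound (l : ℕ) : ∀ (S : Finset α) (A B : Finset (Finset α)),
    (∀ a ∈ A, a ⊆ S) → (∀ b ∈ B, b ⊆ S) → (∀ a ∈ A, ∀ b ∈ B, (a ∩ b).card = l) →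
    S.card ≤ 2 * l → A.card * B.card ≤ Nat.choose S.card l := by
  induction l with
  | zero =>
    intro S A B hA hB hAB hS
    have := main_nat S A B 0 hA hB hAB
    have h0 : S.card = 0 := by omega
    simpa [h0] using this
  | succ l ih =>
    intro S A B hA hB hAB hS
    rcases hS.eq_or_lt with h | h
    · have := main_nat S A B (l + 1) hA hB hAB
      rw [h, pow_mul, mul_comm ((2 ^ 2) ^ (l + 1))] at this
      rw [h]
      exact Nat.le_of_mul_le_mul_right this (by positivity)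
    have h1 : ∀ i ∈ S, (A.filter (i ∈ ·)).card * (B.filter (i ∈ ·)).card
        ≤ Nat.choose (S.card - 1) l := by
      intro i hi
      have hinj : ∀ X : Finset (Finset α),
          Set.InjOn (fun x : Finset α => x.erase i) (X.filter (i ∈ ·)) := by
        intro X x hx x' hx' h
        simp only [coe_filter, Set.mem_ofPred_eq] at hx hx' h
        rw [← Finset.insert_erase hx.2, ← Finset.insert_erase hx'.2, h]
      have key := ih (S.erase i) ((A.filter (i ∈ ·)).image fun x => x.erase i)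
        ((B.filter (i ∈ ·)).image fun x => x.erase i) ?_ ?_ ?_ ?_
      · rwa [Finset.card_image_of_injOn (hinj A), Finset.card_image_of_injOn (hinj B),
          Finset.card_erase_of_mem hi] at key
      · intro y hy
        obtain ⟨x, hx, rfl⟩ := Finset.mem_image.1 hy
        exact Finset.erase_subset_erase _ (hA x (Finset.mem_filter.1 hx).1)
      · intro y hy
        obtain ⟨x, hx, rfl⟩ := Finset.mem_image.1 hy
        exact Finset.erase_subset_erase _ (hB x (Finset.mem_filter.1 hx).1)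
      · intro y hy y' hy'
        obtain ⟨x, hx, rfl⟩ := Finset.mem_image.1 hy
        obtain ⟨x', hx', rfl⟩ := Finset.mem_image.1 hy'
        obtain ⟨hx1, hx2⟩ := Finset.mem_filter.1 hx
        obtain ⟨hx1', hx2'⟩ := Finset.mem_filter.1 hx'
        have e : x.erase i ∩ x'.erase i = (x ∩ x').erase i := by
          ext j
          simp only [Finset.mem_inter, Finset.mem_erase]
          tauto
        rw [e, Finset.card_erase_of_mem (Finset.mem_inter.2 ⟨hx2, hx2'⟩), hAB x hx1 x' hx1']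
        rfl
      · rw [Finset.card_erase_of_mem hi]
        omega
    have h2 : ∑ i ∈ S, (A.filter (i ∈ ·)).card * (B.filter (i ∈ ·)).card
        = A.card * B.card * (l + 1) := by
      have e : ∀ i ∈ S, (A.filter (i ∈ ·)).card * (B.filter (i ∈ ·)).card
          = ∑ p ∈ A ×ˢ B, if i ∈ p.1 ∩ p.2 then 1 else 0 := by
        intro i _
        rw [← Finset.card_product, ← Finset.filter_product, Finset.card_filter]
        simp only [Finset.mem_inter]
      rw [Finset.sum_congr rfl e, Finset.sum_comm, ← Finset.card_product, ← smul_eq_mul,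
        ← Finset.sum_const]
      refine Finset.sum_congr rfl fun p hp => ?_
      obtain ⟨ha, hb⟩ := Finset.mem_product.1 hp
      rw [← Finset.card_filter, Finset.filter_mem_eq_inter,
        Finset.inter_eq_right.2 (Finset.inter_subset_left.trans (hA _ ha)), hAB _ ha _ hb]
    have h3 := Finset.sum_le_sum h1
    rw [h2, Finset.sum_const, smul_eq_mul] at h3
    rcases Nat.eq_zero_or_pos S.card with h0 | h0
    · rw [h0] at h3 ⊢
      simp only [zero_mul, nonpos_iff_eq_zero, mul_eq_zero, Nat.succ_ne_zero, or_false] at h3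
      rcases h3 with h3 | h3 <;> simp [h3]
    · obtain ⟨m, hm⟩ : ∃ m, S.card = m + 1 := ⟨S.card - 1, by omega⟩
      rw [hm] at h3 ⊢
      rw [Nat.add_sub_cancel, Nat.add_one_mul_choose_eq] at h3
      exact Nat.le_of_mul_le_mul_right h3 (by omega)

end Pool.Agent.MP_da4a48_co.H89
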